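import Mathlib
import Pool.Agent.V11311.ER.R4

set_option autoImplicit false

/-!
The longest common block of parities of two typical trajectories.
-/

namespace Pool.Agent.Results.MP_39d40e_nt.CommonBlocks

open Filter Topology

/-- the `3x+1` function -/
def T (n : ℕ) : ℕ := if n % 2 = 0 then n / 2 else (3 * n + 1) / 2

/-- the proportion of the pairs `n, m ≤ N` of positive integers with the property `P N n m` tends to `1` -/
def AlmostAllPairs (P : ℕ → ℕ → ℕ → Prop) : Prop :=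
  Tendsto (fun N : ℕ => ({p : ℕ × ℕ | 1 ≤ p.1 ∧ p.1 ≤ N ∧ 1 ≤ p.2 ∧ p.2 ≤ N ∧ P N p.1 p.2}.ncard : ℝ) / (N : ℝ) ^ 2)
    atTop (𝓝 1)

/-- before the first terms `≤ N ^ κ` the trajectories of `n` and `m` have terms which are congruent modulo
`2 ^ k`, that is, which start the same block of `k` parities -/
def CommonBlock (κ : ℝ) (N k n m : ℕ) : Prop :=
  ∃ s t, (∀ s', s' ≤ s → (N : ℝ) ^ κ < T^[s'] n) ∧ (∀ t', t' ≤ t → (N : ℝ) ^ κ < T^[t'] m) ∧
    T^[s] n % 2 ^ k = T^[t] m % 2 ^ k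

open Pool.Agent.V11311.RC Pool.Agent.V11311.FP Pool.Agent.V11311.ER

theorem com_iff (κ : ℝ) (N k n m : ℕ) : Com (Lv κ N) k n m ↔ CommonBlock κ N k n m := by
  have h : ∀ z : ℕ, Lv κ N < z ↔ (N : ℝ) ^ κ < z := by
    intro z
    unfold Lv
    exact Nat.floor_lt (by positivity)
  unfold Com CommonBlock
  simp only [h]
  exact Iff.rfl

/-- **the longest common block has `(2 + o(1)) log_2 log N` parities** -/
theorem result (κ ε : ℝ) (hκ : 0 < κ) (hκ1 : κ < 1) (hε : 0 < ε) (hε1 : ε < 1) :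
    AlmostAllPairs (fun N n m => CommonBlock κ N ⌊(2 - ε) * Real.log (Real.log N) / Real.log 2⌋₊ n m ∧
      ¬ CommonBlock κ N ⌈(2 + ε) * Real.log (Real.log N) / Real.log 2⌉₊ n m) := by
  have h := PD_tendsto (com_law hε hε1 hκ hκ1)
  simp only [com_iff] at h
  exact h

end Pool.Agent.Results.MP_39d40e_nt.CommonBlocks
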