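import Mathlib
import Pool.Agent.V11311.DV.H

set_option autoImplicit false

/-!
The limit law of the place where two random trajectories of the `3x+1` map meet.
-/

namespace Pool.Agent.Results.MP_39d40e_nt.MeetingPointLaw

open Filter Topology

/-- the `3x+1` map `T` on the nonnegative integers -/
def T (n : ℕ) : ℕ := if n % 2 = 0 then n / 2 else (3 * n + 1) / 2

/-- `m` is a term of the trajectory of `n` -/
def Visits (n m : ℕ) : Prop := ∃ j : ℕ, T^[j] n = m

/-- `m` is the first term of the trajectory of `a` which is a term of the trajectory of `b` -/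
def FirstCommon (a b m : ℕ) : Prop := ∃ i : ℕ, T^[i] a = m ∧ Visits b m ∧ ∀ i' < i, ¬ Visits b (T^[i'] a)

/-- the trajectories of `n` and `r` have a common term -/
def Meets (n r : ℕ) : Prop := ∃ i j : ℕ, T^[i] n = T^[j] r

/-- `r` is the smallest of the positive integers whose trajectory meets that of `r` -/
def Smallest (r : ℕ) : Prop := 0 < r ∧ ∀ n : ℕ, 0 < n → Meets n r → r ≤ n

/-- `m` is not a periodic point -/
def Aperiodic (m : ℕ) : Prop := ∀ j : ℕ, 0 < j → T^[j] m ≠ m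

/-- the pairs of integers in `[1, N]` with the first common term `m` -/
noncomputable def pairs (m N : ℕ) : ℕ :=
  {v : ℕ × ℕ | 0 < v.1 ∧ v.1 ≤ N ∧ 0 < v.2 ∧ v.2 ≤ N ∧ FirstCommon v.1 v.2 m}.ncard

/-- the pairs of integers in `[1, N]` with a first common term `> x` -/
noncomputable def pairsAbove (x N : ℕ) : ℕ :=
  {v : ℕ × ℕ | 0 < v.1 ∧ v.1 ≤ N ∧ 0 < v.2 ∧ v.2 ≤ N ∧ ∃ m, x < m ∧ FirstCommon v.1 v.2 m}.ncard

theorem conv (N : ℕ) (E : ℕ → ℕ → Prop) :
    {v : ℕ × ℕ | 0 < v.1 ∧ v.1 ≤ N ∧ 0 < v.2 ∧ v.2 ≤ N ∧ E v.1 v.2}.ncard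
      = {v : Fin 2 → ℕ | (∀ i, 0 < v i ∧ v i ≤ N) ∧ E (v 0) (v 1)}.ncard := by
  rw [← Set.ncard_image_of_injective _ (finTwoArrowEquiv ℕ).injective]
  congr 1
  ext v
  constructor
  · rintro ⟨h1, h2, h3, h4, h5⟩
    refine ⟨(finTwoArrowEquiv ℕ).symm v, ⟨?_, ?_⟩, Equiv.apply_symm_apply _ _⟩
    · rw [Fin.forall_fin_two]
      exact ⟨⟨h1, h2⟩, h3, h4⟩
    · exact h5
  · rintro ⟨w, ⟨h1, h2⟩, rfl⟩
    exact ⟨(h1 0).1, (h1 0).2, (h1 1).1, (h1 1).2, h2⟩

open scoped Classical in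
/-- **The law of the meeting point.** Let `D a` be the natural density of the integers whose trajectory
visits `a`, and `δ r` that of the integers whose trajectory meets the trajectory of `r`. For every `m > 0`
the probability that the first common term of two random trajectories is `m` has a limit `p m`, the sum of
`D e * (D m - D e)` over the preimages `e` of `m`. If `m` is aperiodic, this is
`2 * D (2 * m) * D ((2 * m - 1) / 3)` for `m ≡ 2 (mod 3)` and `0` otherwise, and it is positive exactly for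
`m ≡ 2, 8 (mod 9)`. The first common terms are tight, the sum of all `p m` is the sum of the squares of the
densities of the classes of coalescing trajectories, and it equals `1` if and only if all trajectories of
positive integers reach `1`. -/
theorem result : ∃ D δ p : ℕ → ℝ,
    (∀ a : ℕ, 0 < a →
      Tendsto (fun N : ℕ => ({n : ℕ | 0 < n ∧ n ≤ N ∧ Visits n a}.ncard : ℝ) / N) atTop (𝓝 (D a))) ∧
    (∀ r : ℕ, 0 < r → 0 < δ r ∧
      Tendsto (fun N : ℕ => ({n : ℕ | 0 < n ∧ n ≤ N ∧ Meets n r}.ncard : ℝ) / N) atTop (𝓝 (δ r))) ∧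
    (∀ m : ℕ, 0 < m →
      Tendsto (fun N : ℕ => (pairs m N : ℝ) / (N : ℝ) ^ 2) atTop (𝓝 (p m)) ∧
      p m = ∑ e ∈ (Finset.Icc 1 (2 * m)).filter (fun e => T e = m), D e * (D m - D e) ∧
      (Aperiodic m →
        (p m = if m % 3 = 2 then 2 * D (2 * m) * D ((2 * m - 1) / 3) else 0) ∧
        (0 < p m ↔ m % 9 = 2 ∨ m % 9 = 8))) ∧
    p 0 = 0 ∧
    (∀ ε : ℝ, 0 < ε → ∃ x : ℕ, ∀ᶠ N : ℕ in atTop, (pairsAbove x N : ℝ) / (N : ℝ) ^ 2 ≤ ε) ∧
    Summable (fun r : ℕ => if Smallest r then δ r ^ 2 else 0) ∧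
    HasSum p (∑' r : ℕ, if Smallest r then δ r ^ 2 else 0) ∧
    (∑' m : ℕ, p m = 1 ↔ ∀ n : ℕ, 0 < n → Visits n 1) := by
  choose δ hδ using Pool.Agent.V11311.DV.cls_dens
  have h : Pool.Agent.V11311.DV.IsC δ := hδ
  choose D hD' using Pool.Agent.V11311.PD.dens_exists
  have hD : Pool.Agent.V11311.PL.IsD D := hD'
  have hV : ∀ r : ℕ, Pool.Agent.V11311.DV.W δ (fun _ => True) 2 r = if Smallest r then δ r ^ 2 else 0 := by
    intro r
    unfold Pool.Agent.V11311.DV.W
    by_cases h1 : Smallest r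
    · have h2 : Pool.Agent.V11311.DV.Rep r ∧ True := ⟨h1, trivial⟩
      rw [if_pos h1, if_pos h2]
    · have h2 : ¬ (Pool.Agent.V11311.DV.Rep r ∧ True) := fun h3 => h1 h3.1
      rw [if_neg h1, if_neg h2]
  have e2 : (fun r : ℕ => if Smallest r then δ r ^ 2 else 0)
      = Pool.Agent.V11311.DV.W δ (fun _ => True) 2 := funext fun r => (hV r).symm
  have hnc : ∀ (P : ℕ → Prop) (N : ℕ), ({n : ℕ | 0 < n ∧ n ≤ N ∧ P n}.ncard : ℝ)
      = (Pool.Agent.V11311.FP.cN P N : ℝ) := by
    intro P N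
    congr 1
    unfold Pool.Agent.V11311.FP.cN
    rw [← Set.ncard_coe_finset]
    congr 1
    ext n
    rw [Finset.mem_coe, Finset.mem_filter, Finset.mem_Icc]
    constructor
    · rintro ⟨h1, h2, h3⟩; exact ⟨⟨h1, h2⟩, h3⟩
    · rintro ⟨⟨h1, h2⟩, h3⟩; exact ⟨h1, h2, h3⟩
  have hpr : ∀ m N : ℕ, pairs m N = (Pool.Agent.V11311.DV.FS m N).ncard := fun m N => conv N fun a b => FirstCommon a b m
  have hpa : ∀ x N : ℕ, pairsAbove x N = (Pool.Agent.V11311.DV.TL x N).ncard :=
    fun x N => conv N fun a b => ∃ m, x < m ∧ FirstCommon a b m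
  have hsum := Pool.Agent.V11311.DV.pm_sum h hD
  have hpre : ∀ m : ℕ, 0 < m → (Finset.Icc 1 (2 * m)).filter (fun e => T e = m) = Pool.Agent.V11311.DV.pre m := by
    intro m hm
    ext e
    rw [Pool.Agent.V11311.DV.mem_pre, Finset.mem_filter, Finset.mem_Icc]
    constructor
    · rintro ⟨_, h1⟩; exact h1
    · intro h1
      have h2 := Pool.Agent.V11311.DV.T_eq_iff.1 h1
      exact ⟨by omega, h1⟩
  refine ⟨D, δ, Pool.Agent.V11311.DV.pm D, ?_, ?_, ?_, ?_, ?_, ?_, ?_, ?_⟩
  · intro a _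
    have h1 := Pool.Agent.V11311.FP.IsD.hasD hD a
    unfold Pool.Agent.V11311.FP.HasD at h1
    refine h1.congr fun N => ?_
    rw [hnc]
    rfl
  · intro r hr
    refine ⟨h.pos hr, ?_⟩
    have h1 := h r
    unfold Pool.Agent.V11311.FP.HasD at h1
    refine h1.congr fun N => ?_
    rw [hnc]
    rfl
  · intro m hm
    refine ⟨?_, ?_, ?_⟩
    · refine (Pool.Agent.V11311.DV.FS_lim hD m).congr fun N => ?_
      rw [hpr]
    · rw [hpre m hm]
      rfl
    · intro hper
      exact ⟨Pool.Agent.V11311.DV.pm_formula hD hm hper, Pool.Agent.V11311.DV.pm_pos_iff hD hm hper⟩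
  · unfold Pool.Agent.V11311.DV.pm
    have h1 : Pool.Agent.V11311.DV.pre 0 = {0} := by
      ext e
      rw [Pool.Agent.V11311.DV.mem_pre, Pool.Agent.V11311.DV.T_eq_iff, Finset.mem_singleton]
      omega
    rw [h1, Finset.sum_singleton, sub_self, mul_zero]
  · intro ε hε
    obtain ⟨X, hX⟩ := Pool.Agent.V11311.DV.TL_tight ε hε
    refine ⟨X, ?_⟩
    filter_upwards [hX] with N hN
    rw [hpa]
    exact hN
  · rw [e2]
    exact Pool.Agent.V11311.DV.W_summable h _ (by norm_num)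
  · rw [e2]
    exact hsum
  · rw [hsum.tsum_eq, ← Pool.Agent.V11311.DV.coal_iff h le_rfl]
    constructor
    · intro h1 n hn
      obtain ⟨i, j, hij⟩ := h1 n hn
      have key : ∀ j : ℕ, T^[j] 1 = 1 ∨ T^[j] 1 = 2 := by
        intro j
        induction j with
        | zero => exact Or.inl rfl
        | succ j ih =>
          rw [Function.iterate_succ_apply']
          rcases ih with h | h
          · rw [h]; exact Or.inr rfl
          · rw [h]; exact Or.inl rfl
      rcases key j with h2 | h2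
      · exact ⟨i, hij.trans h2⟩
      · refine ⟨i + 1, ?_⟩
        rw [Function.iterate_succ_apply']
        have h3 : T^[i] n = 2 := hij.trans h2
        rw [h3]
        rfl
    · intro h1 n hn
      obtain ⟨i, hi⟩ := h1 n hn
      exact ⟨i, 0, hi⟩

end Pool.Agent.Results.MP_39d40e_nt.MeetingPointLaw
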