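import Mathlib
import Pool.Agent.V11311.ER.O

set_option autoImplicit false

/-!
Equidistribution modulo growing powers of two in short windows of typical trajectories.
-/

namespace Pool.Agent.Results.MP_39d40e_nt.ShortWindows

open Filter Topology

/-- the `3x+1` function -/
def T (n : ℕ) : ℕ := if n % 2 = 0 then n / 2 else (3 * n + 1) / 2

/-- the positive integers with the property `P` have the natural density `δ` -/
def HasDensity (P : ℕ → Prop) (δ : ℝ) : Prop :=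
  Tendsto (fun N : ℕ => ({n : ℕ | 1 ≤ n ∧ n ≤ N ∧ P n}.ncard : ℝ) / N) atTop (𝓝 δ)

/-- the number of terms congruent to `r` modulo `2 ^ k` among `m, T m, ..., T^(w-1) m` -/
def count (k r w m : ℕ) : ℕ := ((Finset.range w).filter fun i => T^[i] m % 2 ^ k = r).card

/-- the terms with the indices `< t` of the trajectory of `n` are all above `n ^ κ` -/
def Above (κ : ℝ) (n t : ℕ) : Prop := ∀ s, s < t → (n : ℝ) ^ κ < T^[s] n

open Pool.Agent.V11311.RC Pool.Agent.V11311.FP Pool.Agent.V11311.ER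

theorem conv {P : ℕ → Prop} {δ : ℝ} (h : HasD P δ) : HasDensity P δ := by
  classical
  unfold HasDensity
  unfold HasD at h
  refine h.congr fun N => ?_
  congr 1
  unfold cN
  rw [← Set.ncard_coe_finset]
  congr 2
  ext n
  rw [Finset.mem_coe, Finset.mem_filter, Finset.mem_Icc]
  constructor
  · rintro ⟨⟨h1, h2⟩, h3⟩; exact ⟨h1, h2, h3⟩
  · rintro ⟨h1, h2, h3⟩; exact ⟨⟨h1, h2⟩, h3⟩

/-- **equidistribution modulo powers of two in short windows** -/
theorem result : (∀ δ : ℝ, 0 < δ → δ ≤ 1 → ∃ C : ℝ, 0 < C ∧ ∀ ε κ : ℝ, 0 < ε → ε < 1 → 0 < κ →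
    HasDensity (fun n => ∀ k s w : ℕ, 1 ≤ k → (2 : ℝ) ^ k ≤ Real.log n ^ (1 - ε) →
      C * k * 2 ^ k * Real.log (Real.log n) ≤ w → Above κ n (s + w) →
      ∀ r, r < 2 ^ k → |(count k r w (T^[s] n) : ℝ) - w / 2 ^ k| ≤ δ * (w / 2 ^ k)) 1) ∧
    ∀ ε κ : ℝ, 0 < ε → ε < 1 → 0 < κ → κ < 1 →
    HasDensity (fun n => ∀ k : ℕ, (2 : ℝ) ^ k ≤ Real.log n ^ (1 - ε) → ∀ r, r < 2 ^ k →
      ∃ s, Above κ n (s + 1) ∧ T^[s] n % 2 ^ k = r) 1 := by
  classical
  refine ⟨fun δ hδ hδ1 => ?_, fun ε κ hε hε1 hκ hκ1 => ?_⟩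
  · obtain ⟨C, hC0, hC⟩ := window_law hδ hδ1
    refine ⟨C, hC0, fun ε κ hε hε1 hκ => conv (HasD.congr (hC ε κ hε hε1 hκ) fun n _ => ?_)⟩
    have hcount : ∀ k r w m, Vc (Cr k r) w m = count k r w m := by
      intro k r w m
      rw [Vc_eq]
      unfold count
      congr 1
      ext i
      rw [Finset.mem_filter, Finset.mem_filter]
      exact Iff.rfl
    unfold Pool.Agent.V11311.ER.Eq Above
    simp only [hcount]
    exact Iff.rfl
  · refine conv (HasD.congr (visits hε hε1 hκ hκ1) fun n _ => ?_)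
    unfold Vis2 Above
    constructor
    · intro h k hk r hr
      obtain ⟨s, h1, h2⟩ := h k hk r hr
      exact ⟨s, fun s' hs' => h1 s' (by omega), h2⟩
    · intro h k hk r hr
      obtain ⟨s, h1, h2⟩ := h k hk r hr
      exact ⟨s, fun s' hs' => h1 s' (by omega), h2⟩

end Pool.Agent.Results.MP_39d40e_nt.ShortWindows
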