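import Pool.Agent.H319R2.LeighBridge
import Pool.Agent.V11113.CT.Traj2
import Pool.Agent.V11113.MR.BilFam

/-!
# Leigh's Markov chain and thin families of integers

Let `C` be a finite closed communicating class of Leigh's chain of a generalised Collatz map `T` modulo `d`, with the number
`Λ = Λ_C`, and let `f` be a nonconstant polynomial with integer coefficients. The families consist of the integers
`n = z + v i`, where `z` is an arbitrary integer and the `v i` are the least residues modulo an arbitrary large integer `M` of a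
family with exponential sums `O(#s M ^ (-ω))`, with an arbitrarily small `ω > 0` (`Small`). For almost all members `n` with
`f n ∈ S_C` the trajectory of `f n` follows the law `Λ ^ j |f n|` for a number of steps proportional to `log M`.

Examples (part (4)): the values `x · Q y + f₁(x) + f₂(y)` modulo a prime `p` at the pairs of vectors of two arbitrary sets with
`#A #A' ≥ p ^ (k + 2 ω)`; for `k = 1` this contains the products of the elements of two arbitrary sets with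
`#A #A' ≥ p ^ (1 + 2 ω)` and the multiplicative subgroups of order `p ^ (1 / 2 + ω)`. Nothing else is assumed about the family;
it may have as few as about `M ^ (2 ω)` different members.
-/

set_option autoImplicit false

namespace Pool.Agent.Results.MP_39d40e_nt.ThinFamilies

open Finset Polynomial Pool.Agent.H319R2.Leigh Matrix

/-- For `d ^ j ≤ Y` the term `T^j x` of the trajectory of `x` has absolute value `L ^ j |x|`, up to a
factor between `Y ^ (-ε)` and `Y ^ ε`. -/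
def Follows (d : ℕ) (m r : ℤ → ℤ) (L ε Y : ℝ) (x : ℤ) : Prop :=
  ∀ j : ℕ, (d : ℝ) ^ j ≤ Y →
    Y ^ (-ε) * L ^ j * |(x : ℝ)| ≤ |(((T d m r)^[j] x : ℤ) : ℝ)| ∧
    |(((T d m r)^[j] x : ℤ) : ℝ)| ≤ Y ^ ε * L ^ j * |(x : ℝ)|

/-- The exponential sums over the family `v i ∈ ℤ / M`, `i ∈ s`, at all nonzero frequencies are at most
`#s M ^ (-ω)`. (`ZMod.stdAddChar` is the character `e(x / M)`.) -/
def Small (M : ℕ) [NeZero M] (ω : ℝ) {ι : Type} (s : Finset ι) (v : ι → ZMod M) : Prop :=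
  ∀ b : ZMod M, b ≠ 0 → ‖∑ i ∈ s, (ZMod.stdAddChar (b * v i) : ℂ)‖ ≤ s.card * (M : ℝ) ^ (-ω)

open Classical in
/-- The number of the members `i` of the family for which the integer `n i` does not have the property `P`. -/
noncomputable def exceptions {ι : Type} (s : Finset ι) (n : ι → ℤ) (P : ℤ → Prop) : ℕ :=
  (s.filter (fun i => ¬ P (n i))).card

theorem exceptions_le {ι : Type} {s : Finset ι} {n : ι → ℤ} {P : ℤ → Prop} {X : ℝ}
    (h : ∀ A ⊆ s, (∀ i ∈ A, ¬ P (n i)) → (A.card : ℝ) ≤ X) : (exceptions s n P : ℝ) ≤ X := by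
  classical
  unfold exceptions
  exact h _ (filter_subset _ _) (fun S hS => (mem_filter.1 hS).2)

section

variable {d : ℕ} {m r b : ℤ → ℤ} {e : ℤ → ℕ} {C : Finset (ℤ × ℕ)} {ρ : ℤ × ℕ → ℝ}

theorem lam_pos (D : Data d m r b e) : 0 < Lam d m C ρ := by
  unfold Lam
  apply Finset.prod_pos
  intro i hi
  rw [Finset.mem_range] at hi
  have h := (gm D).ne i (by positivity) (by exact_mod_cast hi)
  have h2 : ((m (i : ℤ) : ℤ) : ℝ) ≠ 0 := by exact_mod_cast h
  have hd0 : (0 : ℝ) < d := by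
    have : 0 < d := by have := D.two_le; omega
    exact_mod_cast this
  positivity

theorem mu_eq (D : Data d m r b e) (hC : Class d m r e C ρ) :
    Pool.Agent.Y927.GP.mu (gm D) C ρ = Real.log (Lam d m C ρ) := (log_Lam D hC).symm

theorem typ_iff (D : Data d m r b e) (hC : Class d m r e C ρ) (ε Y : ℝ) (x : ℤ) :
    Pool.Agent.Y927.GP.Typ (gm D) (Pool.Agent.Y927.GP.mu (gm D) C ρ) ε Y x ↔ Follows d m r (Lam d m C ρ) ε Y x := by
  unfold Pool.Agent.Y927.GP.Typ Follows
  rw [mu_eq D hC, gm_T]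
  have h1 : ∀ j : ℕ, Real.exp (j * Real.log (Lam d m C ρ)) = Lam d m C ρ ^ j := by
    intro j
    rw [Real.exp_nat_mul, Real.exp_log (lam_pos D)]
  simp only [h1]
  exact Iff.rfl

end

/-- **Main theorem.** Let `T` be a generalised Collatz map modulo `d`, `C` a finite closed communicating class of its Leigh chain with
stationary distribution `ρ`, `f` a polynomial of degree at least `1` with integer coefficients and `ω > 0`.

(1) For every `ε > 0` there are `c, δ > 0`, `y₀` and `M₀` such that for all `M ≥ M₀`, `y ≥ y₀`, all families with `Small M ω s v` and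
ALL integers `z` all but at most `y ^ (-δ) #s` of the integers `n = z + v i` (`0 ≤ v i < M` the least residue) have the following
property: if `f n ∈ S_C`, then the trajectory of `f n` follows the law `Λ_C ^ j |f n|` for `log_d Y` steps, for all `Y` with
`y ≤ Y ≤ M ^ c`.

(2) If `Λ_C < 1` and `B ≥ 1`, there are `η, δ > 0` and `M₀` such that for all `M ≥ M₀`, all families with `Small M ω s v`, all
integers `z` with `|z| ≤ M ^ B` and all but at most `M ^ (-δ) #s` of the members `n`: if `f n ∈ S_C`, then some term of the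
trajectory of `f n` has absolute value at most `|f n| ^ (1 - η)`.

(3) If `Λ_C > 1`, the same holds with absolute value at least `|f n| ^ (1 + η)`.

(4) `Small p ω` holds for every prime `p`, every `k`, all sets `A`, `A'` of vectors modulo `p` with
`#A #A' ≥ p ^ (k + 2 ω)`, every invertible matrix `Q` and arbitrary functions `f₁`, `f₂`, for the family
`x · Q y + f₁(x) + f₂(y)`, `x ∈ A`, `y ∈ A'`. -/
theorem result (d : ℕ) (m r b : ℤ → ℤ) (e : ℤ → ℕ) (D : Data d m r b e) (C : Finset (ℤ × ℕ))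
    (ρ : ℤ × ℕ → ℝ) (hC : Class d m r e C ρ) (f : ℤ[X]) (hf : 1 ≤ f.natDegree) (ω : ℝ) (hω : 0 < ω) :
    (∀ ε : ℝ, 0 < ε → ∃ c δ : ℝ, 0 < c ∧ 0 < δ ∧ ∃ y₀ M₀ : ℕ, ∀ (M : ℕ) [NeZero M], M₀ ≤ M → ∀ y : ℕ, y₀ ≤ y →
      ∀ (ι : Type) (s : Finset ι) (v : ι → ZMod M), Small M ω s v → ∀ z : ℤ,
      (exceptions s (fun i => z + ((v i).val : ℤ)) (fun n => f.eval n ∈ S d C → ∀ Y : ℝ, y ≤ Y → Y ≤ (M : ℝ) ^ c →
        Follows d m r (Lam d m C ρ) ε Y (f.eval n)) : ℝ) ≤ (y : ℝ) ^ (-δ) * s.card) ∧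
    (Lam d m C ρ < 1 → ∀ B : ℝ, 1 ≤ B → ∃ η δ : ℝ, 0 < η ∧ 0 < δ ∧ ∃ M₀ : ℕ, ∀ (M : ℕ) [NeZero M], M₀ ≤ M →
      ∀ (ι : Type) (s : Finset ι) (v : ι → ZMod M), Small M ω s v → ∀ z : ℤ, |(z : ℝ)| ≤ (M : ℝ) ^ B →
      (exceptions s (fun i => z + ((v i).val : ℤ)) (fun n => f.eval n ∈ S d C → ∃ k : ℕ,
        |(((T d m r)^[k] (f.eval n) : ℤ) : ℝ)| ≤ |((f.eval n : ℤ) : ℝ)| ^ (1 - η)) : ℝ) ≤
          (M : ℝ) ^ (-δ) * s.card) ∧
    (1 < Lam d m C ρ → ∀ B : ℝ, 1 ≤ B → ∃ η δ : ℝ, 0 < η ∧ 0 < δ ∧ ∃ M₀ : ℕ, ∀ (M : ℕ) [NeZero M], M₀ ≤ M →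
      ∀ (ι : Type) (s : Finset ι) (v : ι → ZMod M), Small M ω s v → ∀ z : ℤ, |(z : ℝ)| ≤ (M : ℝ) ^ B →
      (exceptions s (fun i => z + ((v i).val : ℤ)) (fun n => f.eval n ∈ S d C → ∃ k : ℕ,
        |((f.eval n : ℤ) : ℝ)| ^ (1 + η) ≤ |(((T d m r)^[k] (f.eval n) : ℤ) : ℝ)|) : ℝ) ≤
          (M : ℝ) ^ (-δ) * s.card) ∧
    (∀ (p : ℕ) [Fact p.Prime] (k : ℕ) (A A' : Finset (Fin k → ZMod p)) (Q : Matrix (Fin k) (Fin k) (ZMod p)),
      IsUnit Q.det → (p : ℝ) ^ (k + 2 * ω) ≤ A.card * A'.card → ∀ f₁ f₂ : (Fin k → ZMod p) → ZMod p,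
      Small p ω (A ×ˢ A') (fun z => z.1 ⬝ᵥ Q.mulVec z.2 + f₁ z.1 + f₂ z.2)) := by
  refine ⟨fun ε hε => ?_, fun hlt B hB => ?_, fun hgt B hB => ?_, ?_⟩
  · obtain ⟨c, δ, hc, hδ, y₀, t₀, h⟩ := Pool.Agent.V11113.CT.traj (gm_fac D) (gm_cls D hC) hf hω hε 0
    refine ⟨c, δ, hc, hδ, y₀, max 2 ⌈Real.exp t₀⌉₊, fun M _ hM y hy ι s v hsum z => ?_⟩
    have hM2 : 2 ≤ M := (le_max_left _ _).trans hM
    have hM0 : (0 : ℝ) < M := by exact_mod_cast (by omega : 0 < M)
    have htm : t₀ ≤ Real.log M := by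
      rw [Real.le_log_iff_exp_le hM0]
      exact (Nat.le_ceil _).trans (Nat.cast_le.2 ((le_max_right _ _).trans hM))
    have hconv : (M : ℝ) ^ c = Real.exp (c * Real.log M) := by
      rw [Real.rpow_def_of_pos hM0]
      congr 1
      ring
    rw [hconv]
    apply exceptions_le
    intro A hA hE
    refine h M (Real.log M) rfl htm y hy s v hsum z A hA (fun S hS => ?_)
    have h1 := hE S hS
    push Not at h1
    obtain ⟨h2, Y, h3, h4, h5⟩ := h1
    exact ⟨h2, Y, h3, h4, fun h6 => h5 ((typ_iff D hC ε Y _).1 h6.2)⟩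
  · have hμ : Pool.Agent.Y927.GP.mu (gm D) C ρ < 0 := by
      rw [mu_eq D hC]
      exact Real.log_neg (lam_pos D) hlt
    obtain ⟨η, δ, hη, hδ, M₀, h⟩ := Pool.Agent.V11113.CT.drop_pow (gm_fac D) (gm_cls D hC) hμ hf hω B hB
    refine ⟨η, δ, hη, hδ, M₀, fun M _ hM ι s v hsum z hz => ?_⟩
    apply exceptions_le
    intro A hA hE
    refine h M hM s v hsum z hz A hA (fun S hS => ?_)
    have h1 := hE S hS
    push Not at h1
    exact h1
  · have hμ : 0 < Pool.Agent.Y927.GP.mu (gm D) C ρ := by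
      rw [mu_eq D hC]
      exact Real.log_pos hgt
    obtain ⟨η, δ, hη, hδ, M₀, h⟩ := Pool.Agent.V11113.CT.rise_pow (gm_fac D) (gm_cls D hC) hμ hf hω B hB
    refine ⟨η, δ, hη, hδ, M₀, fun M _ hM ι s v hsum z hz => ?_⟩
    apply exceptions_le
    intro A hA hE
    refine h M hM s v hsum z hz A hA (fun S hS => ?_)
    have h1 := hE S hS
    push Not at h1
    exact h1
  · intro p _ k A A' Q hQ hN f₁ f₂ b hb
    exact Pool.Agent.V11113.MR.bil_small ω p k A A' Q hQ f₁ f₂ hN b hb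

end Pool.Agent.Results.MP_39d40e_nt.ThinFamilies
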